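import Pool.Agent.X312.FK.Inf

/-!
# A gap law for the cokernels of the cycle class maps of `Y × X ^ n`, `Y` a function field

Let `k` be a finite field, `X` a smooth projective geometrically irreducible variety over `k` such
that `ℓ`-adic homological and numerical equivalence agree on its powers (known for abelian
varieties and products of curves and suitable `ℓ` by Clozel). Let `Y` be **any smooth variety
over** `k`, **not necessarily projective, or more generally any limit of smooth varieties** along
affine dominant maps, for example the spectrum of **a function field** `k(x_1, …, x_N)`; then the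
cohomology of `Y × Z` is in general of infinite dimension. Fix `a ≥ 0`, let `H(Z) = ⊕_j H^(2 j -
a)(Y × Z, ℚ_ℓ(j))` (over the algebraic closure of `k`, and defined as a direct limit), let `F` be
the Frobenius, and `A(Z)` the image of `⊕_j CH^j(Y × Z, a) ⊗ ℚ_ℓ`. Let `ρ(Z)` be the rank of the
cycles of all codimensions on `Z` modulo numerical equivalence, and `b` the sum of the Betti
numbers of `X`. For all `m ≥ 1`: **all the invariants** `F x = x` **in** `H(X ^ m)` **belong to**
`A(X ^ m)`, **so that Q1 holds for** `Y × X ^ m` **and** `2 j - i = a`, **or for all** `n ≥ 1`
**at least**

`(1 - 4 (m + 3) b ^ (m + 5) log (n + 1) / n) ρ(X ^ n)`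

**invariants in** `H(X ^ n)` **are linearly independent modulo** `A(X ^ n)`.

The case of function fields is of interest since by the results quoted in the problem the case of
the rational function fields already implies the conjectures of Tate and Beilinson. (For `a > 0`
there are no invariants by the theory of weights if `Y` is projective; so the varieties of
interest are those with `Y` open.)

The proof. For `Z` a power of `X` the algebraic correspondences act on the spaces `T(Z)` of
invariants and `A(Z)`. If `A(P) ≠ T(P)` for `P = X ^ m`, one takes an idempotent algebraic
correspondence `g` on `P` of minimal rank with `g T(P) ⊄ A(P)` and an element `z` of `g T(P)`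
which is not in `A(P)`. The correspondences `x` with `x z ∈ A(P)` have a nilpotent compression `g
x g`, so the trace of `g x` vanishes, and so `dim T(Z) / A(Z)` is at least the rank of the trace
form `(u, v) ↦ tr (g v u)` on the correspondences between `P` and `Z`; for `Z = X ^ n` this rank
is compared with `ρ(X ^ n)` by the log-convexity of the sequence of the ranks of the intersection
forms and by the symmetric group.
-/

set_option autoImplicit false

open CategoryTheory AlgebraicGeometry

universe u v w

namespace Pool.Agent.Results.MP_81b968_ag.RelativeGapLaw

open Pool.Agent.H914 VarClass Obj WeilCohomology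
open Pool.Agent.X312.FK (HomModule IndepMod gapBound)
open Pool.Agent.Y133.Half (pw cycRank)

variable {k : Type u} [Field k] {𝒱 : VarClass k} {ops : CycleOps 𝒱}
  {W : WeilCohomology.{u, v} ops}

/-- The sum of the Betti numbers of `X`. -/
noncomputable def totalBetti (W : WeilCohomology.{u, v} ops) (X : 𝒱.Obj) : ℕ :=
  Module.finrank W.K (W.H X)

/-- **The gap law for the cokernels of the cycle class maps.** Here `T.M Z` is in the intended use
`⊕_j H^(2 j - a)(Y × Z, ℚ_ℓ(j))`, a vector space which may be of infinite dimension (if `Y` is the
spectrum of a function field), on which the correspondences between smooth projective varieties act,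
`F` is the Frobenius, `A Z` is the subspace generated by the classes of the elements of the higher Chow
groups `CH^j(Y × Z, a)`, and `pw X m` is the product of `m + 1` copies of `X`. -/
theorem result (T : HomModule W) (hT : T.IsFunctor) (F : ∀ Z : 𝒱.Obj, T.M Z → T.M Z)
    (hF : T.IsFrobenius F) (A : ∀ Z : 𝒱.Obj, Submodule W.K (T.M Z)) (hA : T.IsStable A) (X : 𝒱.Obj)
    (hD : ∀ n : ℕ, HomEqNum W (pw X n)) (m : ℕ) :
    (∀ x : T.M (pw X m), F _ x = x → x ∈ A (pw X m)) ∨
    ∀ n : ℕ, IndepMod {x : T.M (pw X n) | F _ x = x} (A (pw X n))
      (gapBound (totalBetti W X) (cycRank ops (pw X n)) m n) :=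
  Pool.Agent.X312.FK.fix_law hF hT X hD hA m

end Pool.Agent.Results.MP_81b968_ag.RelativeGapLaw
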